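import Pool.Agent.TH872.Sq.W22

set_option autoImplicit false

namespace Pool.Agent.Results.MP_4fffd4_nt.DigitRestrictedPatterns
open Finset
open Pool.Agent.TH872.Sq (dg SD main_pattern)

/-- the integers below `b ^ k` whose `i`-th digit in base `b` belongs to `D i` for all `i < k` -/
def S (b : ℕ) (D : ℕ → Finset ℕ) (k : ℕ) : Finset ℕ := (range (b ^ k)).filter (fun n : ℕ => ∀ i < k, n / b ^ i % b ∈ D i)

/-- the Liouville function -/
noncomputable def lam (n : ℕ) : ℝ := (-1) ^ ArithmeticFunction.cardFactors n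

/-- the elements `n < Y` of `S` congruent to `a` modulo `q` -/
def Seg (b : ℕ) (D : ℕ → Finset ℕ) (k Y q a : ℕ) : Finset ℕ := (S b D k).filter (fun n => n < Y ∧ n % q = a)

/-- the degree of `κ x ^ 2 + β x` -/
def deg (κ : ℕ) : ℕ := if κ = 0 then 1 else 2

open scoped Classical in
/-- the number of the elements `n < Y` of `S` congruent to `a` modulo `q` for which the signs `λ (κ j n ^ 2 + β j n + h j)`
form the pattern `ε` -/
noncomputable def Pat (b : ℕ) (D : ℕ → Finset ℕ) (k Y q a : ℕ) {r : ℕ} (κ β h : Fin r → ℕ) (ε : Fin r → ℝ) : ℕ :=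
  ((Seg b D k Y q a).filter (fun n => ∀ j, lam (κ j * n ^ 2 + β j * n + h j) = ε j)).card

open scoped Classical in
/-- **Every sign pattern of the Liouville function has the expected frequency along integers with restricted digits, for almost
all vectors of shifts.** -/
theorem result (b : ℕ) (hb : 2 ≤ b) (r : ℕ) (κ β : Fin r → ℕ) (hκ : ∀ j, κ j ≠ 0 ∨ β j ≠ 0) (F A U : ℕ) :
    ∃ K₀ : ℕ, ∀ k : ℕ, K₀ ≤ k → ∀ D : ℕ → Finset ℕ, (∀ i < k, D i ⊆ range b ∧ 2 ≤ (D i).card) →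
    ∀ X : Fin r → ℕ, (∀ j, b ^ (deg (κ j) * k) ≤ X j ∧ X j ≤ F * b ^ (deg (κ j) * k)) →
    (((Fintype.piFinset (fun j : Fin r => Icc 1 (X j))).filter (fun h : Fin r → ℕ =>
      ∃ ε : Fin r → ℝ, (∀ j, ε j = 1 ∨ ε j = -1) ∧ ∃ Y q a : ℕ, Y ≤ b ^ k ∧ 1 ≤ q ∧ q ≤ k ^ A ∧
        ((S b D k).card : ℝ) / (k : ℝ) ^ U < |(Pat b D k Y q a κ β h ε : ℝ) - ((Seg b D k Y q a).card : ℝ) / 2 ^ r|)).card : ℝ) ≤
      (∏ j, (X j : ℝ)) / (k : ℝ) ^ U := by
  have hdg : ∀ j, dg ((κ j : ℕ) : ℤ) = deg (κ j) := by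
    intro j
    unfold dg deg
    simp only [Nat.cast_eq_zero]
  obtain ⟨K₀, h1⟩ := main_pattern b hb r κ β hκ F A U
  refine ⟨K₀, fun k hk D hD X hX => ?_⟩
  apply h1 k hk D hD X (fun j => by rw [hdg]; exact hX j)
  intro h _ hQ
  obtain ⟨ε, hε, Y, q, a, hY, hq1, hq2, hlt⟩ := hQ
  refine ⟨ε, hε, Y, q, a, hY, hq1, hq2, ?_⟩
  exact hlt

end Pool.Agent.Results.MP_4fffd4_nt.DigitRestrictedPatterns
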