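import Pool.Agent.TH907.Cx.Sharp

/-!
# Block complexity near the Liouville function

The Liouville function is changed by choosing new values `±1` at the primes of a set `Q`; all other
prime values are kept.  `family g Q` is the set of all `2 ^ |Q|` completely multiplicative
functions obtained in this way from `g` (for finite `Q`), `coins` is the product of fair coins, and
`IsModif g Q ω f` says that `f` is the modification of `g` on `Q` by the signs `ω`.

For one sign pattern of length `n` and a finite set `Q` of primes larger than `n`, all but at most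
`∑ k < n, (|Q| choose k)` members of the family contain the pattern with positive upper density,
and this bound is attained by `g = 1`.  Hence re-signing `5 n` primes is enough for block
complexity `2 ^ n` at length `n`, and re-signing any infinite set of primes, however sparse,
almost surely gives block complexity `2 ^ n` for all `n`, with an explicit bound for the places
where the patterns occur.
-/

set_option autoImplicit false

namespace Pool.Agent.Results.MP_4fffd4_nt.FullComplexityThinSigns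

open Finset Filter MeasureTheory Pool.Agent.H220M Pool.Agent.TH907.Cx

theorem result :
    -- the Liouville function is among the functions `g` considered below
    (∃ L : ℕ →*₀ ℤ, (∀ m : ℕ, m ≠ 0 → L m = (-1) ^ (ArithmeticFunction.cardFactors m)) ∧
      ∀ p : ℕ, p.Prime → L p = 1 ∨ L p = -1) ∧
    (∀ g : ℕ →*₀ ℤ, (∀ p : ℕ, p.Prime → g p = 1 ∨ g p = -1) →
      -- (1) one pattern and a finite set of primes
      (∀ (n : ℕ) (Q : Finset ℕ), (∀ q ∈ Q, q.Prime ∧ n < q) →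
        ∀ t : Fin n → ℤ, (∀ j, t j = 1 ∨ t j = -1) →
          (family g Q).ncard = 2 ^ Q.card ∧
          {f ∈ family g Q | ∀ᶠ x : ℕ in atTop,
              cnt f t x * (2 ^ (n + 1) * ∏ q ∈ Q, q ^ 2) < x}.ncard
            ≤ ∑ k ∈ range n, Q.card.choose k) ∧
      -- (2) full block complexity at length `n` from `5 n` primes
      (∀ (n k : ℕ) (Q B : Finset ℕ), (∀ q ∈ Q, q.Prime) → B ⊆ Q → (∀ q ∈ B, n < q) →
        5 * n + 2 * k ≤ B.card →
        (2 : ℝ) ^ k * ({f ∈ family g Q | ¬ (blockComplexity f n = 2 ^ n ∧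
            ∀ t : Fin n → ℤ, (∀ j, t j = 1 ∨ t j = -1) → ∃ m : ℕ, 1 ≤ m ∧
              m < 2 ^ (n + 2) * ∏ q ∈ B, q ^ 2 ∧ ∀ j : Fin n, f (m + (j + 1)) = t j)}.ncard : ℝ)
          ≤ (4 / 5) ^ n * 2 ^ Q.card) ∧
      -- (3) every infinite set of primes
      (∀ Q : Set ℕ, Q.Infinite → (∀ q ∈ Q, q.Prime) →
        ∀ T : ℕ → Finset ℕ, (∀ n, ∀ q ∈ T n, q ∈ Q ∧ n < q) → (∀ n, 5 * n ≤ (T n).card) →
        ∀ᵐ ω ∂coins, ∃! f : ℕ →*₀ ℤ, IsModif g Q ω f ∧
          (∀ n : ℕ, blockComplexity f n = 2 ^ n) ∧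
          (∀ (n : ℕ) (t : Fin n → ℤ), (∀ j, t j = 1 ∨ t j = -1) →
            ∃ δ : ℝ, 0 < δ ∧ ∃ᶠ x : ℕ in atTop, δ * x ≤ (cnt f t x : ℝ)) ∧
          (∀ᶠ n : ℕ in atTop, ∀ t : Fin n → ℤ, (∀ j, t j = 1 ∨ t j = -1) →
            ∃ m : ℕ, 1 ≤ m ∧ m < 2 ^ (n + 2) * ∏ q ∈ T n, q ^ 2 ∧
              ∀ j : Fin n, f (m + (j + 1)) = t j))) ∧
    -- (4) the bound in (1) is attained
    (∀ g : ℕ →*₀ ℤ, (∀ p : ℕ, p.Prime → g p = 1) →
      ∀ (n : ℕ) (Q : Finset ℕ), (∀ q ∈ Q, q.Prime ∧ n < q) →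
        {f ∈ family g Q | ∀ m : ℕ, ∃ j : Fin n, f (m + (j + 1)) ≠ -1}.ncard
          = ∑ k ∈ range n, Q.card.choose k) := by
  refine ⟨liouville_hom, fun g hg => ⟨?_, ?_, ?_⟩, sharp⟩
  · -- (1)
    intro n Q hQ t ht
    obtain ⟨hfin, hcard, hx⟩ := family_pattern g hg n Q hQ t ht
    exact ⟨hcard, eventually_of_scale hfin
      (fun x f => cnt f t x * (2 ^ (n + 1) * ∏ q ∈ Q, q ^ 2) < x) _ _ hx⟩
  · -- (2)
    intro n k Q B hQ hBQ hB hc
    have hMpos : 0 < ∏ q ∈ B, q ^ 2 :=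
      Finset.prod_pos fun q hq => pow_pos (hQ q (hBQ hq)).pos 2
    set X : ℕ := 2 ^ (n + 2) * ∏ q ∈ B, q ^ 2 with hX
    have hMX : (∏ q ∈ B, q ^ 2) ≤ X := Nat.le_mul_of_pos_left _ (by positivity)
    have h1 := family_all g hg n Q B hQ hBQ hB X hMX
    obtain ⟨g', hfin, -, -⟩ := family_bad g hg Q hQ
    have hsub : {f ∈ family g Q | ¬ (blockComplexity f n = 2 ^ n ∧
            ∀ t : Fin n → ℤ, (∀ j, t j = 1 ∨ t j = -1) → ∃ m : ℕ, 1 ≤ m ∧
              m < X ∧ ∀ j : Fin n, f (m + (j + 1)) = t j)} ⊆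
        {f ∈ family g Q | ∃ t : Fin n → ℤ, (∀ j, t j = 1 ∨ t j = -1) ∧
          cnt f t X * (2 ^ (n + 1) * ∏ q ∈ B, q ^ 2) < X} := by
      rintro f ⟨hf, hbad⟩
      refine ⟨hf, ?_⟩
      by_contra hcon
      push Not at hcon
      apply hbad
      have hocc : ∀ t : Fin n → ℤ, (∀ j, t j = 1 ∨ t j = -1) → ∃ m : ℕ, 1 ≤ m ∧
              m < X ∧ ∀ j : Fin n, f (m + (j + 1)) = t j := by
        intro t ht
        apply occurs_of_cnt
        by_contra h2
        have h3 : cnt f t X ≤ 1 := by omega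
        have h4 := hcon t ht
        have h5 : cnt f t X * (2 ^ (n + 1) * ∏ q ∈ B, q ^ 2)
            ≤ 1 * (2 ^ (n + 1) * ∏ q ∈ B, q ^ 2) := Nat.mul_le_mul_right _ h3
        have h6 : 2 ^ (n + 1) * ∏ q ∈ B, q ^ 2 < X :=
          Nat.mul_lt_mul_of_pos_right (Nat.pow_lt_pow_right (by norm_num) (by omega)) hMpos
        omega
      refine ⟨blockComplexity_eq f n fun t ht => ?_, hocc⟩
      obtain ⟨m, hm1, -, hm⟩ := hocc t ht
      exact ⟨m, hm1, hm⟩
    have h2 := (Set.ncard_le_ncard hsub (hfin.subset (fun f hf => hf.1))).trans h1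
    have h3 := num n k B.card hc
    have hle : B.card ≤ Q.card := Finset.card_le_card hBQ
    have h4 : (2 : ℝ) ^ Q.card = 2 ^ (Q.card - B.card) * 2 ^ B.card := by
      rw [← pow_add]; congr 1; omega
    calc (2 : ℝ) ^ k * ({f ∈ family g Q | ¬ (blockComplexity f n = 2 ^ n ∧
            ∀ t : Fin n → ℤ, (∀ j, t j = 1 ∨ t j = -1) → ∃ m : ℕ, 1 ≤ m ∧
              m < X ∧ ∀ j : Fin n, f (m + (j + 1)) = t j)}.ncard : ℝ)
        ≤ 2 ^ k * ((2 ^ n * (2 ^ (Q.card - B.card) * ∑ i ∈ range n, B.card.choose i) : ℕ) : ℝ) := by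
          refine mul_le_mul_of_nonneg_left ?_ (by positivity)
          exact_mod_cast h2
      _ = 2 ^ (Q.card - B.card) * (2 ^ k * 2 ^ n * ((∑ i ∈ range n, B.card.choose i : ℕ) : ℝ)) := by
          push_cast; ring
      _ ≤ 2 ^ (Q.card - B.card) * ((4 / 5) ^ n * 2 ^ B.card) :=
          mul_le_mul_of_nonneg_left h3 (by positivity)
      _ = (4 / 5) ^ n * 2 ^ Q.card := by rw [h4]; ring
  · -- (3)
    intro Q hQ hQp T hT hTc
    filter_upwards [finalC g hg Q hQ hQp,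
      as_effective g hg Q T (fun n q hq => ⟨(hT n q hq).1, hQp q (hT n q hq).1, (hT n q hq).2⟩) hTc]
      with ω hω hω2
    obtain ⟨f, ⟨hf, hden⟩, -⟩ := hω
    refine ⟨f, ⟨hf, ?_, hden, hω2 f hf⟩, fun f' hf' => isModif_unique g Q ω f' f hf'.1 hf⟩
    intro n
    apply blockComplexity_eq
    intro t ht
    obtain ⟨δ, hδ, hfr⟩ := hden n t ht
    obtain ⟨x, hx1, hx2⟩ := (hfr.and_eventually (eventually_ge_atTop (⌈2 / δ⌉₊))).exists
    have h3 : (2 : ℝ) ≤ cnt f t x := by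
      refine le_trans ?_ hx1
      have h4 : 2 / δ ≤ x := (Nat.le_ceil _).trans (by exact_mod_cast hx2)
      rw [div_le_iff₀ hδ] at h4
      linarith
    obtain ⟨m, hm1, -, hm⟩ := occurs_of_cnt f t x (by exact_mod_cast h3)
    exact ⟨m, hm1, hm⟩

end Pool.Agent.Results.MP_4fffd4_nt.FullComplexityThinSigns
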